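import Pool.Agent.Helper10.CR.Goals2

/-!
# Packet CR-LR3
-/

universe u

namespace Pool.Agent.Helper45.CR

open Pool.Agent.Helper10.CR IsLocalRing

section

variable {R : Type u} [CommRing R] [IsLocalRing R]

theorem mem_of_not_dvd {a b : R} (h : ¬ a ∣ b) : a ∈ maximalIdeal R := by
  rw [mem_maximalIdeal, mem_nonunits_iff]
  intro hu
  exact h hu.dvd

theorem mul_mem_mI {a b t s : R} (ht : t ∈ maximalIdeal R) (hs : s ∈ Ideal.span {a, b}) :
    t * s ∈ maximalIdeal R * Ideal.span {a, b} := Ideal.mul_mem_mul ht hs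

theorem a_mem (a b : R) : a ∈ Ideal.span ({a, b} : Set R) := Ideal.subset_span (by simp)

theorem b_mem (a b : R) : b ∈ Ideal.span ({a, b} : Set R) := Ideal.subset_span (by simp)

/-- Case A. -/
theorem caseA (h1 : GoalLR1.{u}) (h2 : GoalLR2.{u}) (hW : ¬ CaseW R) (hI : ¬ CaseI R)
    (a b r r₂ x x' : R) (hab : ¬ a ∣ b) (hba : ¬ b ∣ a) (hr : r ∈ maximalIdeal R)
    (hr₂ : r₂ ∈ maximalIdeal R) (hx : x ∈ maximalIdeal R) (hx' : x' ∈ maximalIdeal R)
    (e1 : a = r * x) (e2 : b = r₂ * x) (e3 : b = r * x') (hxx' : ¬ x ∣ x') (hx'x : ¬ x' ∣ x)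
    (hm : maximalIdeal R ≠ Ideal.span {x, x'}) : CaseII R := by
  obtain ⟨-, hone, -, hthree⟩ := h1 R hW hI
  obtain ⟨hind, hF, hirr⟩ := h2 R hW hI a b r r₂ x x' hab hba hr hr₂ hx hx' e1 e2 e3
  have hle : Ideal.span {x, x'} ≤ maximalIdeal R := by
    rw [Ideal.span_le]
    rintro y (rfl | rfl)
    · exact hx
    · exact hx'
  obtain ⟨x₁, hx₁m, hx₁⟩ : ∃ x₁ ∈ maximalIdeal R, x₁ ∉ Ideal.span {x, x'} := by
    by_contra hcon
    push Not at hcon
    exact hm (le_antisymm hcon hle)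
  obtain ⟨t, ht, t₂, ht₂, x₁', hx₁'m, α, β, q1, q2, q3, q4, -, -, q5, q6⟩ :=
    hthree x x' hxx' hx'x x₁ hx₁m hx₁
  have hC : ∀ v ∈ maximalIdeal R, ∃ v₁ ∈ maximalIdeal R, v * x' = v₁ * x ∧
      v * (α * x + β * x') = v₁ * x' := by
    intro v hv
    obtain ⟨v₁, hv₁, hv₁e⟩ := hone x₁' x₁ q6 q5 v hv
    refine ⟨v₁, hv₁, ?_, ?_⟩
    · calc v * x' = t * (v * x₁') := by rw [q3]; ring
        _ = t * (v₁ * x₁) := by rw [hv₁e]
        _ = v₁ * x := by rw [q1]; ring
    · calc v * (α * x + β * x') = t₂ * (v * x₁') := by rw [← q4]; ring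
        _ = t₂ * (v₁ * x₁) := by rw [hv₁e]
        _ = v₁ * x' := by rw [q2]; ring
  have hA : r₂ * x' - (α * a + β * b) ∈ maximalIdeal R * Ideal.span {a, b} := by
    obtain ⟨v₁, hv₁, hv1, hv2⟩ := hC r hr
    have h0 : (v₁ - r₂) * x ∈ maximalIdeal R * Ideal.span {a, b} := by
      have : (v₁ - r₂) * x = 0 := by rw [sub_mul, ← hv1, ← e3, ← e2, sub_self]
      rw [this]
      exact zero_mem _
    have h3 := hF _ h0
    have h4 : r₂ * x' - (α * a + β * b) = -((v₁ - r₂) * x') := by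
      have : α * a + β * b = r * (α * x + β * x') := by rw [e1, e3]; ring
      rw [this, hv2]
      ring
    rw [h4]
    exact neg_mem h3
  have hspan : Ideal.span ({r * x, r * x'} : Set R) = Ideal.span {a, b} := by rw [← e1, ← e3]
  refine ⟨r, hr, x, hx, x', hx', α, β, ?_, hirr α β hA, ?_⟩
  · intro u v huv
    rw [hspan, ← e1, ← e3] at huv
    exact hind u v huv
  · intro u v f g huv
    rw [hspan, ← e1, ← e3] at huv
    rw [hspan, ← e1, ← e3]
    have h5 : u * a + v * b ∈ maximalIdeal R * Ideal.span {a, b} := by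
      have h6 : u * a + v * b = r * (u * x + v * x' - (f * a + g * b)) + r * (f * a + g * b) := by
        have : u * a + v * b = r * (u * x + v * x') := by rw [e1, e3]; ring
        rw [this]
        ring
      rw [h6]
      refine add_mem (Ideal.mul_mem_left _ _ huv) (mul_mem_mI hr ?_)
      exact add_mem (Ideal.mul_mem_left _ _ (a_mem a b)) (Ideal.mul_mem_left _ _ (b_mem a b))
    obtain ⟨hu, hv⟩ := hind u v h5
    obtain ⟨v₁, hv₁, hv1, hv2⟩ := hC v hv
    have h7 : (u + v₁ - f * r - g * r₂) * x ∈ maximalIdeal R * Ideal.span {a, b} := by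
      have : (u + v₁ - f * r - g * r₂) * x = u * x + v * x' - (f * a + g * b) := by
        have h8 : f * a + g * b = f * (r * x) + g * (r₂ * x) := by rw [← e1, ← e2]
        rw [h8, hv1]
        ring
      rw [this]
      exact huv
    have h9 := hF _ h7
    have h10 : u * x' + v * (α * x + β * x') - (α * g * a + (f + β * g) * b) =
        (u + v₁ - f * r - g * r₂) * x' + g * (r₂ * x' - (α * a + β * b)) := by
      have h11 : (f + β * g) * b = f * (r * x') + β * g * b := by rw [← e3]; ring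
      rw [h11, hv2]
      ring
    rw [h10]
    exact add_mem h9 (Ideal.mul_mem_left _ _ hA)

theorem caseB (h2 : GoalLR2.{u}) (hW : ¬ CaseW R) (hI : ¬ CaseI R)
    (a b r r₂ x x' α β : R) (hab : ¬ a ∣ b) (hba : ¬ b ∣ a) (hr : r ∈ maximalIdeal R)
    (hr₂ : r₂ ∈ maximalIdeal R) (hx : x ∈ maximalIdeal R) (hx' : x' ∈ maximalIdeal R)
    (e1 : a = r * x) (e2 : b = r₂ * x) (e3 : b = r * x') (e4 : r₂ * x' = α * a + β * b)
    (hm : maximalIdeal R = Ideal.span {r, r₂}) : CaseII R := by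
  obtain ⟨hind, hF, hirr⟩ := h2 R hW hI a b r r₂ x x' hab hba hr hr₂ hx hx' e1 e2 e3
  have hspan : Ideal.span ({r * x, r * x'} : Set R) = Ideal.span {a, b} := by rw [← e1, ← e3]
  have hA : r₂ * x' - (α * a + β * b) ∈ maximalIdeal R * Ideal.span {a, b} := by
    rw [e4, sub_self]
    exact zero_mem _
  refine ⟨r, hr, x, hx, x', hx', α, β, ?_, hirr α β hA, ?_⟩
  · intro u v huv
    rw [hspan, ← e1, ← e3] at huv
    exact hind u v huv
  · intro u v f g huv
    rw [hspan, ← e1, ← e3] at huv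
    rw [hspan, ← e1, ← e3]
    have h5 : u * a + v * b ∈ maximalIdeal R * Ideal.span {a, b} := by
      have h6 : u * a + v * b = r * (u * x + v * x' - (f * a + g * b)) + r * (f * a + g * b) := by
        have : u * a + v * b = r * (u * x + v * x') := by rw [e1, e3]; ring
        rw [this]
        ring
      rw [h6]
      refine add_mem (Ideal.mul_mem_left _ _ huv) (mul_mem_mI hr ?_)
      exact add_mem (Ideal.mul_mem_left _ _ (a_mem a b)) (Ideal.mul_mem_left _ _ (b_mem a b))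
    obtain ⟨hu, hv⟩ := hind u v h5
    rw [hm, Ideal.mem_span_pair] at hu hv
    obtain ⟨u₁, u₂, hu⟩ := hu
    obtain ⟨v₁, v₂, hv⟩ := hv
    have e5 : u * x + v * x' = (u₁ + α * v₂) * a + (u₂ + v₁ + β * v₂) * b := by
      calc u * x + v * x' = u₁ * (r * x) + u₂ * (r₂ * x) + v₁ * (r * x') + v₂ * (r₂ * x') := by
            rw [← hu, ← hv]; ring
        _ = u₁ * a + u₂ * b + v₁ * b + v₂ * (α * a + β * b) := by rw [← e1, ← e2, ← e3, e4]
        _ = _ := by ring
    have h7 : (u₁ + α * v₂ - f) * a + (u₂ + v₁ + β * v₂ - g) * b ∈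
        maximalIdeal R * Ideal.span {a, b} := by
      have : (u₁ + α * v₂ - f) * a + (u₂ + v₁ + β * v₂ - g) * b =
          u * x + v * x' - (f * a + g * b) := by
        rw [e5]; ring
      rw [this]
      exact huv
    obtain ⟨hp, hq⟩ := hind _ _ h7
    have e6 : u * x' + v * (α * x + β * x') =
        α * (u₂ + v₁ + β * v₂) * a + (u₁ + α * v₂ + β * (u₂ + v₁ + β * v₂)) * b := by
      calc u * x' + v * (α * x + β * x') = u₁ * (r * x') + u₂ * (r₂ * x') +
            v₁ * (α * (r * x) + β * (r * x')) + v₂ * (α * (r₂ * x) + β * (r₂ * x')) := by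
            rw [← hu, ← hv]; ring
        _ = u₁ * b + u₂ * (α * a + β * b) + v₁ * (α * a + β * b) +
            v₂ * (α * b + β * (α * a + β * b)) := by rw [← e1, ← e2, ← e3, e4]
        _ = _ := by ring
    have h10 : u * x' + v * (α * x + β * x') - (α * g * a + (f + β * g) * b) =
        α * ((u₂ + v₁ + β * v₂ - g) * a) + ((u₁ + α * v₂ - f) * b +
          β * ((u₂ + v₁ + β * v₂ - g) * b)) := by
      rw [e6]; ring
    rw [h10]
    exact add_mem (Ideal.mul_mem_left _ _ (mul_mem_mI hq (a_mem a b)))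
      (add_mem (mul_mem_mI hp (b_mem a b))
        (Ideal.mul_mem_left _ _ (mul_mem_mI hq (b_mem a b))))

end

theorem goalLR3 : GoalLR3.{u} := by
  intro h1 h2 R _ _ hW hI a b hab hba hne
  have ham : a ∈ maximalIdeal R := mem_of_not_dvd hab
  have hbm : b ∈ maximalIdeal R := mem_of_not_dvd hba
  have hle : Ideal.span {a, b} ≤ maximalIdeal R := by
    rw [Ideal.span_le]
    rintro y (rfl | rfl)
    · exact ham
    · exact hbm
  obtain ⟨x, hxm, hx⟩ : ∃ x ∈ maximalIdeal R, x ∉ Ideal.span {a, b} := by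
    by_contra hcon
    push Not at hcon
    exact hne (le_antisymm hcon hle)
  obtain ⟨-, -, -, hthree⟩ := h1 R hW hI
  obtain ⟨r, hr, r₂, hr₂, x', hx'm, α, β, e1, e2, e3, e4, hrr₂, hr₂r, hxx', hx'x⟩ :=
    hthree a b hab hba x hxm hx
  by_cases hm : maximalIdeal R = Ideal.span {x, x'}
  · by_cases hm' : maximalIdeal R = Ideal.span {r, r₂}
    · exact caseB h2 hW hI a b r r₂ x x' α β hab hba hr hr₂ hxm hx'm e1 e2 e3 e4 hm'
    · exact caseA h1 h2 hW hI a b x x' r r₂ hab hba hxm hx'm hr hr₂ (by rw [e1, mul_comm])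
        (by rw [e3, mul_comm]) (by rw [e2, mul_comm]) hrr₂ hr₂r hm'
  · exact caseA h1 h2 hW hI a b r r₂ x x' hab hba hr hr₂ hxm hx'm e1 e2 e3 hxx' hx'x hm

end Pool.Agent.Helper45.CR
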