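import Pool.Agent.Helper48.CR.Goals

/-!
# Packet COI of MP_69be96_nt: few primes identify points of two windows
-/

set_option autoImplicit false

open Finset

open Pool.Agent.Helper48.CR

namespace Pool.Agent.Helper45.CR

theorem coi : COIG := by
  intro K r M y n n' S A A' hr hK hS hn hn' hA hA' hAM hAM'
  classical
  -- key: the number of primes of S dividing d
  have key : ∀ d : ℕ, 0 < d → d < (r + 1) ^ K → (S.filter (fun p => p ∣ d)).card ≤ K := by
    intro d hd hdK
    set T := S.filter (fun p => p ∣ d) with hT
    have hprod : (∏ p ∈ T, p) ∣ d := by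
      apply Finset.prod_primes_dvd
      · intro p hp
        exact (hS p (Finset.mem_filter.1 hp).1).1.prime
      · intro p hp
        exact (Finset.mem_filter.1 hp).2
    have hle : (∏ p ∈ T, p) ≤ d := Nat.le_of_dvd hd hprod
    have hlow : r ^ T.card ≤ ∏ p ∈ T, p := by
      rw [← Finset.prod_const]
      exact Finset.prod_le_prod' (fun p hp => (hS p (Finset.mem_filter.1 hp).1).2.le)
    have h1 : r ^ T.card < r ^ (K + 1) := by omega
    by_contra hcon
    have h2 : r ^ (K + 1) ≤ r ^ T.card := Nat.pow_le_pow_right hr (by omega)
    omega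
  refine ⟨(insert n A ×ˢ insert n' A').biUnion (fun q => S.filter (fun p => p ∣ q.2 - q.1)), ?_, ?_, ?_⟩
  · intro p hp
    obtain ⟨q, _, hq⟩ := Finset.mem_biUnion.1 hp
    exact (Finset.mem_filter.1 hq).1
  · have hb : ∀ x ∈ insert n A, n ≤ x ∧ x ≤ n + y := by
      intro x hx
      rcases Finset.mem_insert.1 hx with rfl | hx
      · omega
      · have := Finset.mem_Ioc.1 (hA hx)
        omega
    have hb' : ∀ x ∈ insert n' A', n' ≤ x ∧ x ≤ n' + y := by
      intro x hx
      rcases Finset.mem_insert.1 hx with rfl | hx
      · omega
      · have := Finset.mem_Ioc.1 (hA' hx)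
        omega
    calc _ ≤ (insert n A ×ˢ insert n' A').card * K := by
            apply Finset.card_biUnion_le_card_mul
            intro q hq
            obtain ⟨h1, h2⟩ := Finset.mem_product.1 hq
            have := hb _ h1
            have := hb' _ h2
            apply key <;> omega
      _ ≤ (M + 1) ^ 2 * K := by
            apply Nat.mul_le_mul_right
            rw [Finset.card_product, sq]
            apply Nat.mul_le_mul
            · exact (Finset.card_insert_le _ _).trans (by omega)
            · exact (Finset.card_insert_le _ _).trans (by omega)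
      _ = K * (M + 1) ^ 2 := by ring
  · intro p hp x hx x' hx' hmod
    obtain ⟨hpS, hpC⟩ := Finset.mem_sdiff.1 hp
    apply hpC
    refine Finset.mem_biUnion.2 ⟨(x, x'), Finset.mem_product.2 ⟨hx, hx'⟩, Finset.mem_filter.2 ⟨hpS, ?_⟩⟩
    have hle : x ≤ x' := by
      have h1 : x ≤ n + y := by
        rcases Finset.mem_insert.1 hx with rfl | hx
        · omega
        · have := Finset.mem_Ioc.1 (hA hx)
          omega
      have h2 : n' ≤ x' := by
        rcases Finset.mem_insert.1 hx' with rfl | hx'
        · omega
        · have := Finset.mem_Ioc.1 (hA' hx')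
          omega
      omega
    exact (Nat.modEq_iff_dvd' hle).1 hmod

end Pool.Agent.Helper45.CR
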